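import Pool.Agent.H56.ST.Defs
import Pool.Agent.H22.T7.PFB
import Pool.Agent.H56.ID.OPS

/-!
# WEY: polynomial families of differential operators have a normal form
-/

set_option autoImplicit false

namespace Pool.Agent.H56.ST

open Finset MvPolynomial
open Pool.Agent.H22 Pool.Agent.H22.T7 Pool.Agent.H56.ID

/-- `Φ` has a normal form. -/
def HasW {n : ℕ} (B : ℂ → Module.End ℂ (MvPolynomial (Fin n) ℂ)) : Prop :=
  ∃ P : WeylS n, ∀ (c : ℂ) (h : MvPolynomial (Fin n) ℂ), P.act c h = B c h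

theorem HasW.add {n : ℕ} {B B' : ℂ → Module.End ℂ (MvPolynomial (Fin n) ℂ)} (h : HasW B)
    (h' : HasW B') : HasW (fun c => B c + B' c) := by
  obtain ⟨P, hP⟩ := h
  obtain ⟨P', hP'⟩ := h'
  exact ⟨P + P', fun c h => by rw [OPS_add, hP, hP', LinearMap.add_apply]⟩

theorem HasW.mul {n : ℕ} {B : ℂ → Module.End ℂ (MvPolynomial (Fin n) ℂ)} (h : HasW B)
    (a : MvPolynomial (Fin n) ℂ) : HasW (fun c => LinearMap.mulLeft ℂ a * B c) := by
  obtain ⟨P, hP⟩ := h
  obtain ⟨P', hP'⟩ := OPS_mul a P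
  exact ⟨P', fun c h => by rw [hP', hP]; rfl⟩

theorem HasW.zero {n : ℕ} : HasW (fun _ => (0 : Module.End ℂ (MvPolynomial (Fin n) ℂ))) := by
  refine ⟨0, fun c h => ?_⟩
  unfold WeylS.act
  rw [Finsupp.sum_zero_index]
  rfl

theorem HasW.sum {n : ℕ} {ι : Type} (T : Finset ι)
    (B : ι → ℂ → Module.End ℂ (MvPolynomial (Fin n) ℂ)) (h : ∀ i ∈ T, HasW (B i)) :
    HasW (fun c => ∑ i ∈ T, B i c) := by
  classical
  induction T using Finset.induction_on with
  | empty =>
    simp only [Finset.sum_empty]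
    exact HasW.zero
  | insert i T hi ih =>
    have h1 := (h i (Finset.mem_insert_self i T)).add
      (ih fun j hj => h j (Finset.mem_insert_of_mem hj))
    refine ⟨h1.choose, fun c g => ?_⟩
    rw [h1.choose_spec]
    simp only [Finset.sum_insert hi]

theorem HasW.scal {n : ℕ} {B : ℂ → Module.End ℂ (MvPolynomial (Fin n) ℂ)} (h : HasW B)
    (q : Polynomial ℂ) : HasW (fun c => q.eval c • B c) := by
  obtain ⟨P, hP⟩ := h
  refine ⟨P.mapRange (fun p => C q * p) (mul_zero _), fun c h => ?_⟩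
  rw [LinearMap.smul_apply, ← hP]
  unfold WeylS.act
  rw [Finsupp.sum_mapRange_index (fun β => by rw [map_zero, zero_mul]), Finsupp.sum,
    Finsupp.sum, Finset.smul_sum]
  refine Finset.sum_congr rfl fun β _ => ?_
  rw [map_mul, MvPolynomial.map_C, mul_assoc, MvPolynomial.smul_eq_C_mul]
  rfl

theorem der_eq {n : ℕ}
    (δ : Derivation ℂ (MvPolynomial (Fin n) ℂ) (MvPolynomial (Fin n) ℂ))
    (g : MvPolynomial (Fin n) ℂ) : δ g = ∑ j, δ (X j) * pderiv j g := by
  induction g using MvPolynomial.induction_on with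
  | C a =>
    rw [← MvPolynomial.algebraMap_eq, Derivation.map_algebraMap]
    refine (Finset.sum_eq_zero fun j _ => ?_).symm
    rw [Derivation.map_algebraMap, mul_zero]
  | add p q hp hq =>
    rw [map_add, hp, hq, ← Finset.sum_add_distrib]
    refine Finset.sum_congr rfl fun j _ => ?_
    rw [map_add, mul_add]
  | mul_X p i hp =>
    rw [Derivation.leibniz, hp, smul_eq_mul, smul_eq_mul, Finset.mul_sum]
    have h1 : ∀ j ∈ (univ : Finset (Fin n)), δ (X j) * pderiv j (p * X i) =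
        (if j = i then p * δ (X i) else 0) + X i * (δ (X j) * pderiv j p) := by
      intro j _
      rw [Derivation.leibniz, smul_eq_mul, smul_eq_mul]
      by_cases hj : j = i
      · subst hj
        rw [pderiv_X_self, if_pos rfl]
        ring
      · rw [pderiv_X_of_ne (Ne.symm hj), if_neg hj]
        ring
    rw [Finset.sum_congr rfl h1, Finset.sum_add_distrib, Finset.sum_ite_eq' univ i,
      if_pos (mem_univ i)]

theorem hasW_diff {n : ℕ} : ∀ D ∈ Diff (MvPolynomial (Fin n) ℂ), HasW (fun _ => D) := by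
  apply Diff_ind
  · refine ⟨Finsupp.single 0 1, fun c h => ?_⟩
    rw [OPS_single, map_one, one_mul, OPS_zero]
    rfl
  · intro D E h1 h2
    exact h1.add h2
  · intro c D h1
    have h2 := h1.scal (Polynomial.C c)
    refine ⟨h2.choose, fun c' h => ?_⟩
    rw [h2.choose_spec]
    simp only [Polynomial.eval_C]
  · intro a D h1
    exact h1.mul a
  · intro δ D h1
    obtain ⟨P, hP⟩ := h1
    have h2 : ∀ j, HasW (fun _ : ℂ => LinearMap.mulLeft ℂ (δ (X j)) *
        ((pderiv j : Derivation ℂ (MvPolynomial (Fin n) ℂ)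
          (MvPolynomial (Fin n) ℂ)).toLinearMap * D)) := by
      intro j
      refine HasW.mul ?_ _
      obtain ⟨P', hP'⟩ := OPS_der j P
      exact ⟨P', fun c h => by rw [hP', hP]; rfl⟩
    obtain ⟨P', hP'⟩ := HasW.sum univ _ fun j _ => h2 j
    refine ⟨P', fun c h => ?_⟩
    rw [hP', LinearMap.sum_apply]
    change _ = δ (D h)
    rw [der_eq]
    rfl

/-- WEY -/
theorem hasW_PF {n : ℕ} {B : ℂ → Module.End ℂ (MvPolynomial (Fin n) ℂ)}
    (hB : B ∈ PF (MvPolynomial (Fin n) ℂ)) : HasW B := by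
  obtain ⟨d, D, hD, hBD⟩ := (PF_iff B).1 hB
  obtain ⟨P, hP⟩ := HasW.sum univ _ fun i _ =>
    (hasW_diff (D i) (hD i)).scal (Polynomial.X ^ (i : ℕ))
  refine ⟨P, fun c h => ?_⟩
  rw [hP, hBD, LinearMap.sum_apply, LinearMap.sum_apply]
  refine Finset.sum_congr rfl fun i _ => ?_
  rw [Polynomial.eval_pow, Polynomial.eval_X]

/-- From `FEq` to `FunctionalEquation`. -/
theorem fe_of_feq {n : ℕ} (F : MvPolynomial (Fin n) ℂ) (b : Polynomial ℂ)
    (h : FEq (MvPolynomial (Fin n) ℂ) F b) : ∃ P : WeylS n, FunctionalEquation F b P := by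
  obtain ⟨B, hB, hk⟩ := h
  obtain ⟨P, hP⟩ := hasW_PF hB
  refine ⟨P, fun k => ?_⟩
  rw [hP, hk, one_mul, MvPolynomial.C_mul']

end Pool.Agent.H56.ST
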