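import Pool.Agent.H56.ST.SUBP
import Pool.Agent.H56.ST.WEY
import Pool.Agent.H22.T7.AUT
import Pool.Agent.H22.T7.FEA
import Pool.Agent.H22.T7.ZST
import Pool.Agent.H22.G6

/-!
# FES: the functional equation of a stably equivalent polynomial
-/

set_option autoImplicit false

namespace Pool.Agent.H56.ST

open Finset MvPolynomial
open Pool.Agent.H22 Pool.Agent.H22.T7

theorem not_unit_of_nonconst {n : ℕ} (F : MvPolynomial (Fin n) ℂ) (hF : ∀ c : ℂ, F ≠ C c) :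
    ¬ IsUnit F := by
  intro h
  rw [MvPolynomial.isUnit_iff_eq_C_of_isReduced] at h
  obtain ⟨r, -, hr⟩ := h
  exact hF r hr

theorem zero_of_nonconst {n : ℕ} (F : MvPolynomial (Fin n) ℂ) (hF : ∀ c : ℂ, F ≠ C c) :
    F ≠ 0 := by
  intro h
  exact hF 0 (by rw [h, map_zero])

/-- The functional equation with `b = (X + 1) bt` of `F` gives one with `(X + 1) bt(X + e)` of
every polynomial isomorphic to `F + u_1 v_1 + ⋯ + u_e v_e`. -/
theorem fe_stab {n e m : ℕ} (F : MvPolynomial (Fin n) ℂ) (hF : ∀ c : ℂ, F ≠ C c)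
    (b : Polynomial ℂ) (P : WeylS n) (hP : FunctionalEquation F b P)
    (φ : MvPolynomial (Fin n ⊕ (Fin e ⊕ Fin e)) ℂ ≃ₐ[ℂ] MvPolynomial (Fin m) ℂ) :
    ∃ (bt : Polynomial ℂ) (P' : WeylS m), b = (Polynomial.X + 1) * bt ∧
      FunctionalEquation (φ (susP F e))
        ((Polynomial.X + 1) * bt.comp (Polynomial.X + Polynomial.C (e : ℂ))) P' := by
  have h1 := eval_neg_one_general F hF b P hP
  have h2 : (Polynomial.X - Polynomial.C (-1) : Polynomial ℂ) ∣ b := by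
    rw [Polynomial.dvd_iff_isRoot]
    exact h1
  obtain ⟨bt, hbt⟩ := h2
  have h3 : b = (Polynomial.X + 1) * bt := by
    rw [hbt, map_neg, map_one, sub_neg_eq_add]
  have h4 := fea F b P hP
  rw [h3] at h4
  have h5 := suspP F (zero_of_nonconst F hF) (not_unit_of_nonconst F hF) e bt h4
  have h6 := aut φ _ _ h5
  obtain ⟨P', hP'⟩ := fe_of_feq _ _ h6
  exact ⟨bt, P', h3, hP'⟩

theorem susP_nonconst {n e : ℕ} (F : MvPolynomial (Fin n) ℂ) (hF : ∀ c : ℂ, F ≠ C c) (c : ℂ) :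
    susP F e ≠ C c := by
  intro h
  apply hF c
  have h1 := congrArg (aeval (Sum.elim X fun _ => 0) :
    MvPolynomial (Fin n ⊕ (Fin e ⊕ Fin e)) ℂ →ₐ[ℂ] MvPolynomial (Fin n) ℂ) h
  rw [MvPolynomial.algHom_C, susP, map_add, MvPolynomial.aeval_rename, map_sum,
    Finset.sum_eq_zero, add_zero] at h1
  · rw [← MvPolynomial.algebraMap_eq, ← h1]
    have h2 : (Sum.elim X (fun _ => 0) : Fin n ⊕ (Fin e ⊕ Fin e) → MvPolynomial (Fin n) ℂ) ∘
        Sum.inl = X := by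
      funext j
      rfl
    rw [h2, MvPolynomial.aeval_X_left, AlgHom.id_apply]
  · intro k _
    rw [map_mul, MvPolynomial.aeval_X, MvPolynomial.aeval_X]
    simp

theorem exists_ne {n e m r : ℕ} (F : MvPolynomial (Fin n) ℂ) (hF : ∀ c : ℂ, F ≠ C c)
    (a : Fin r → (Fin m →₀ ℕ)) (κ : Fin r → ℂ)
    (φ : MvPolynomial (Fin n ⊕ (Fin e ⊕ Fin e)) ℂ ≃ₐ[ℂ] MvPolynomial (Fin m) ℂ)
    (hφ : φ (susP F e) = ∑ i, monomial (a i) (κ i)) : ∃ i, a i ≠ 0 := by
  by_contra h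
  push Not at h
  refine susP_nonconst (e := e) F hF (∑ i, κ i) ?_
  apply φ.injective
  rw [hφ, ← MvPolynomial.algebraMap_eq, AlgEquiv.commutes, MvPolynomial.algebraMap_eq, map_sum]
  refine Finset.sum_congr rfl fun i _ => ?_
  rw [h i]
  rfl

end Pool.Agent.H56.ST
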