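import Pool.Agent.H56.ST.FES

/-!
# UNS: the functions unstab and aff
-/

set_option autoImplicit false

namespace Pool.Agent.H56.ST

open Finset MvPolynomial
open Pool.Agent.H22 Pool.Agent.H22.T7 Pool.Agent.H37.SM

theorem aff_one_zero (Z : RatFunc ℂ) : aff 1 (-((0 : ℕ) : ℂ)) Z = Z := by
  rw [aff, RatFunc.eval, zst_eval, zst_eval]
  have h1 : (Polynomial.C (1 : ℂ) * Polynomial.X + Polynomial.C (-((0 : ℕ) : ℂ)) : Polynomial ℂ) =
      Polynomial.X := by simp
  rw [h1, Polynomial.comp_X, Polynomial.comp_X, RatFunc.num_div_denom]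

theorem X_add_one_ne : (RatFunc.X + 1 : RatFunc ℂ) ≠ 0 := by
  have h := linear_ne_zero 1 1 one_pos
  have h3 : ((1 : ℕ) : RatFunc ℂ) + ((1 : ℕ) : RatFunc ℂ) * RatFunc.X = RatFunc.X + 1 := by
    push_cast; ring
  rwa [h3] at h

theorem unstab_zero (Z : RatFunc ℂ) : unstab 0 Z = Z := by
  unfold unstab
  rw [aff_one_zero]
  have h1 := X_add_one_ne
  have h2 : (RatFunc.X : RatFunc ℂ) ≠ 0 := RatFunc.X_ne_zero
  field_simp
  ring

/-- The denominator of `R` divides `q` iff `R` is a quotient with the denominator `q`. -/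
theorem denom_dvd_of_eq {R : RatFunc ℂ} {p q : Polynomial ℂ}
    (h : R = algebraMap (Polynomial ℂ) (RatFunc ℂ) p / algebraMap (Polynomial ℂ) (RatFunc ℂ) q) :
    R.denom ∣ q := by
  rw [h]
  exact RatFunc.denom_div_dvd p q

theorem exists_of_denom_dvd {R : RatFunc ℂ} {q : Polynomial ℂ} (hq : q ≠ 0)
    (h : R.denom ∣ q) : ∃ p : Polynomial ℂ,
    R = algebraMap (Polynomial ℂ) (RatFunc ℂ) p / algebraMap (Polynomial ℂ) (RatFunc ℂ) q := by
  obtain ⟨c, hc⟩ := h
  have hc0 : c ≠ 0 := by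
    rintro rfl
    exact hq (by rw [hc, mul_zero])
  refine ⟨R.num * c, ?_⟩
  rw [hc, map_mul, map_mul, mul_div_mul_right _ _ (by
    intro h0
    exact hc0 (RatFunc.algebraMap_injective ℂ (by rw [h0, map_zero]))), RatFunc.num_div_denom]

theorem aff_denom (d : ℂ) (R : RatFunc ℂ) {q : Polynomial ℂ} (h : R.denom ∣ q) :
    (aff 1 d R).denom ∣ q.comp (Polynomial.X + Polynomial.C d) := by
  have h1 : (Polynomial.C (1 : ℂ) * Polynomial.X + Polynomial.C d : Polynomial ℂ) =
      Polynomial.X + Polynomial.C d := by simp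
  have h2 : aff 1 d R = algebraMap (Polynomial ℂ) (RatFunc ℂ)
      (R.num.comp (Polynomial.X + Polynomial.C d)) / algebraMap (Polynomial ℂ) (RatFunc ℂ)
      (R.denom.comp (Polynomial.X + Polynomial.C d)) := by
    rw [aff, RatFunc.eval, zst_eval, zst_eval, h1]
  have h3 : R.denom.comp (Polynomial.X + Polynomial.C d) ∣
      q.comp (Polynomial.X + Polynomial.C d) := by
    obtain ⟨c, hc⟩ := h
    rw [hc, Polynomial.mul_comp]
    exact dvd_mul_right _ _
  exact (denom_dvd_of_eq h2).trans h3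

end Pool.Agent.H56.ST
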