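import Pool.Agent.H56.ST.Defs

/-!
# CIR: the output of a circuit is stably equivalent to its Cayley polynomial
-/

set_option autoImplicit false

namespace Pool.Agent.H56.ST

open Finset MvPolynomial

/-- A surjective endomorphism of a Noetherian ring is injective. -/
theorem inj_of_surj {R : Type} [CommRing R] [IsNoetherianRing R] (f : R →+* R)
    (hf : Function.Surjective f) : Function.Injective f := by
  have hk : ∀ (k : ℕ) (x : R), (f ^ k) x = f^[k] x := by
    intro k
    induction k with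
    | zero => intro x; rfl
    | succ k ih =>
      intro x
      rw [pow_succ, RingHom.mul_def, RingHom.comp_apply, ih, Function.iterate_succ,
        Function.comp_apply]
  let I : ℕ →o Ideal R := ⟨fun k => RingHom.ker (f ^ k), by
    refine monotone_nat_of_le_succ fun k x hx => ?_
    rw [RingHom.mem_ker] at hx ⊢
    rw [pow_succ', RingHom.mul_def, RingHom.comp_apply, hx, map_zero]⟩
  obtain ⟨N, hN⟩ := monotone_stabilizes_iff_noetherian.2 ‹IsNoetherianRing R› I
  rw [injective_iff_map_eq_zero]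
  intro x hx
  obtain ⟨y, rfl⟩ := hf.iterate N x
  have h1 : y ∈ I (N + 1) := by
    change y ∈ RingHom.ker (f ^ (N + 1))
    rw [RingHom.mem_ker, hk, Function.iterate_succ_apply']
    exact hx
  rw [← hN (N + 1) (Nat.le_succ N)] at h1
  have h2 : y ∈ RingHom.ker (f ^ N) := h1
  rwa [RingHom.mem_ker, hk] at h2

variable {n e : ℕ}

/-- Difference quotients. -/
theorem diffq (q : Fin e → MvPolynomial (Fin n) ℂ) (s : Set (Fin n ⊕ Fin e))
    (p : MvPolynomial (Fin n ⊕ Fin e) ℂ) (hp : p ∈ supported ℂ s) :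
    ∃ H : Fin e → MvPolynomial (Fin n ⊕ Fin e) ℂ, (∀ j, Sum.inr j ∉ s → H j = 0) ∧
      p - rename Sum.inl (aeval (Sum.elim X q) p) =
        ∑ j, H j * (X (Sum.inr j) - rename Sum.inl (q j)) := by
  classical
  rw [supported_eq_adjoin_X] at hp
  induction hp using Algebra.adjoin_induction with
  | mem x hx =>
    obtain ⟨i, hi, rfl⟩ := hx
    rcases i with i | i
    · refine ⟨0, fun _ _ => rfl, ?_⟩
      rw [aeval_X, Sum.elim_inl, rename_X, sub_self]
      refine (Finset.sum_eq_zero fun j _ => ?_).symm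
      rw [Pi.zero_apply, zero_mul]
    · refine ⟨Pi.single i 1, fun j hj => ?_, ?_⟩
      · refine Pi.single_eq_of_ne ?_ _
        rintro rfl
        exact hj hi
      · rw [aeval_X, Sum.elim_inr, Finset.sum_eq_single i, Pi.single_eq_same, one_mul]
        · intro j _ hj
          rw [Pi.single_eq_of_ne hj, zero_mul]
        · intro h
          exact absurd (mem_univ i) h
  | algebraMap c =>
    refine ⟨0, fun _ _ => rfl, ?_⟩
    rw [AlgHom.commutes, AlgHom.commutes, sub_self]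
    refine (Finset.sum_eq_zero fun j _ => ?_).symm
    rw [Pi.zero_apply, zero_mul]
  | add x y _ _ hx hy =>
    obtain ⟨H, h1, h2⟩ := hx
    obtain ⟨H', h1', h2'⟩ := hy
    refine ⟨H + H', fun j hj => by rw [Pi.add_apply, h1 j hj, h1' j hj, add_zero], ?_⟩
    rw [map_add, map_add]
    simp only [Pi.add_apply, add_mul, Finset.sum_add_distrib]
    rw [← h2, ← h2']
    ring
  | mul x y _ _ hx hy =>
    obtain ⟨H, h1, h2⟩ := hx
    obtain ⟨H', h1', h2'⟩ := hy
    refine ⟨fun j => x * H' j + rename Sum.inl (aeval (Sum.elim X q) y) * H j,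
      fun j hj => by simp only [h1 j hj, h1' j hj, mul_zero, add_zero], ?_⟩
    have h3 : ∑ j, (x * H' j + rename Sum.inl (aeval (Sum.elim X q) y) * H j) *
        (X (Sum.inr j) - rename Sum.inl (q j)) =
        x * ∑ j, H' j * (X (Sum.inr j) - rename Sum.inl (q j)) +
        rename Sum.inl (aeval (Sum.elim X q) y) *
          ∑ j, H j * (X (Sum.inr j) - rename Sum.inl (q j)) := by
      rw [Finset.mul_sum, Finset.mul_sum, ← Finset.sum_add_distrib]
      refine Finset.sum_congr rfl fun j _ => ?_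
      ring
    rw [h3, ← h2, ← h2', map_mul, map_mul]
    ring

/-- The substitution `x ↦ x`, `v_j ↦ v_j - q_j`,
`u_j ↦ t_j u_j - ∑_k u_k H_{k j} + H0_j`. -/
noncomputable def psi (q : Fin e → MvPolynomial (Fin n) ℂ) (t : Fin e → ℂ)
    (H : Fin e → Fin e → MvPolynomial (Fin n ⊕ Fin e) ℂ)
    (H0 : Fin e → MvPolynomial (Fin n ⊕ Fin e) ℂ) :
    MvPolynomial (Fin n ⊕ (Fin e ⊕ Fin e)) ℂ →ₐ[ℂ] MvPolynomial (Fin n ⊕ (Fin e ⊕ Fin e)) ℂ :=
  aeval (Sum.elim (fun i => X (Sum.inl i)) (Sum.elim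
    (fun j => C (t j) * X (Sum.inr (Sum.inl j)) -
      ∑ k, X (Sum.inr (Sum.inl k)) * rename (Sum.map id Sum.inr) (H k j) +
      rename (Sum.map id Sum.inr) (H0 j))
    (fun j => X (Sum.inr (Sum.inr j)) - rename Sum.inl (q j))))

theorem psi_surj (q : Fin e → MvPolynomial (Fin n) ℂ) (t : Fin e → ℂ) (ht : ∀ k, t k ≠ 0)
    (H : Fin e → Fin e → MvPolynomial (Fin n ⊕ Fin e) ℂ) (hH : ∀ k j, ¬ j < k → H k j = 0)
    (H0 : Fin e → MvPolynomial (Fin n ⊕ Fin e) ℂ) : Function.Surjective (psi q t H H0) := by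
  classical
  rw [← AlgHom.range_eq_top, eq_top_iff, ← MvPolynomial.adjoin_range_X, Algebra.adjoin_le_iff]
  set A := (psi q t H H0).range with hA
  have hx : ∀ i, X (Sum.inl i) ∈ A := by
    intro i
    refine ⟨X (Sum.inl i), ?_⟩
    change psi q t H H0 (X (Sum.inl i)) = _
    rw [psi, aeval_X]
    rfl
  have hxr : ∀ p : MvPolynomial (Fin n) ℂ, rename Sum.inl p ∈ A := by
    intro p
    induction p using MvPolynomial.induction_on with
    | C a => rw [rename_C, ← MvPolynomial.algebraMap_eq]; exact A.algebraMap_mem a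
    | add p q hp hq => rw [map_add]; exact A.add_mem hp hq
    | mul_X p i hp => rw [map_mul, rename_X]; exact A.mul_mem hp (hx i)
  have hv : ∀ j, X (Sum.inr (Sum.inr j)) ∈ A := by
    intro j
    have h1 : X (Sum.inr (Sum.inr j)) - rename Sum.inl (q j) ∈ A := by
      refine ⟨X (Sum.inr (Sum.inr j)), ?_⟩
      change psi q t H H0 (X (Sum.inr (Sum.inr j))) = _
      rw [psi, aeval_X]
      rfl
    have h2 := A.add_mem h1 (hxr (q j))
    rwa [sub_add_cancel] at h2
  have hxv : ∀ p : MvPolynomial (Fin n ⊕ Fin e) ℂ, rename (Sum.map id Sum.inr) p ∈ A := by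
    intro p
    induction p using MvPolynomial.induction_on with
    | C a => rw [rename_C, ← MvPolynomial.algebraMap_eq]; exact A.algebraMap_mem a
    | add p q hp hq => rw [map_add]; exact A.add_mem hp hq
    | mul_X p i hp =>
      rw [map_mul, rename_X]
      refine A.mul_mem hp ?_
      rcases i with i | i
      · exact hx i
      · exact hv i
  have hu : ∀ d : ℕ, ∀ j : Fin e, e - (j : ℕ) ≤ d → X (Sum.inr (Sum.inl j)) ∈ A := by
    intro d
    induction d with
    | zero =>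
      intro j hj
      have := j.isLt
      omega
    | succ d ih =>
      intro j hj
      have h1 : C (t j) * X (Sum.inr (Sum.inl j)) -
          ∑ k, X (Sum.inr (Sum.inl k)) * rename (Sum.map id Sum.inr) (H k j) +
          rename (Sum.map id Sum.inr) (H0 j) ∈ A := by
        refine ⟨X (Sum.inr (Sum.inl j)), ?_⟩
        change psi q t H H0 (X (Sum.inr (Sum.inl j))) = _
        rw [psi, aeval_X]
        rfl
      have h2 : ∑ k, X (Sum.inr (Sum.inl k)) * rename (Sum.map id Sum.inr) (H k j) ∈ A := by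
        refine A.sum_mem fun k _ => ?_
        by_cases hk : j < k
        · refine A.mul_mem (ih k ?_) (hxv _)
          have h3 : (j : ℕ) < k := hk
          omega
        · rw [hH k j hk, map_zero, mul_zero]
          exact A.zero_mem
      have h3 := A.sub_mem (A.add_mem h1 h2) (hxv (H0 j))
      have h4 : C (t j) * X (Sum.inr (Sum.inl j)) -
          ∑ k, X (Sum.inr (Sum.inl k)) * rename (Sum.map id Sum.inr) (H k j) +
          rename (Sum.map id Sum.inr) (H0 j) +
          ∑ k, X (Sum.inr (Sum.inl k)) * rename (Sum.map id Sum.inr) (H k j) -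
          rename (Sum.map id Sum.inr) (H0 j) = C (t j) * X (Sum.inr (Sum.inl j)) := by ring
      rw [h4] at h3
      have h5 := A.mul_mem (A.algebraMap_mem (t j)⁻¹) h3
      rw [MvPolynomial.algebraMap_eq, ← mul_assoc, ← C_mul, inv_mul_cancel₀ (ht j), C_1,
        one_mul] at h5
      exact h5
  rintro _ ⟨i, rfl⟩
  rcases i with i | i | i
  · exact hx i
  · exact hu e i (Nat.sub_le _ _)
  · exact hv i

/-- CIR -/
theorem circuit_stab (g : Fin e → MvPolynomial (Fin n ⊕ Fin e) ℂ) (hg : Triangular g)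
    (t : Fin e → ℂ) (ht : ∀ k, t k ≠ 0) (q : Fin e → MvPolynomial (Fin n) ℂ) (hq : Gates g t q)
    (F0 : MvPolynomial (Fin n ⊕ Fin e) ℂ) :
    ∃ φ : MvPolynomial (Fin n ⊕ (Fin e ⊕ Fin e)) ℂ ≃ₐ[ℂ]
      MvPolynomial (Fin n ⊕ (Fin e ⊕ Fin e)) ℂ,
      φ (susP (aeval (Sum.elim X q) F0) e) = cayley g t F0 := by
  classical
  have h1 : ∀ k, g k ∈ supported ℂ {i | ∀ j, i = Sum.inr j → j < k} := by
    intro k
    rw [mem_supported]
    rintro i hi j rfl
    exact hg k j (by simpa using hi)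
  choose H hH1 hH2 using fun k => diffq q _ (g k) (h1 k)
  obtain ⟨H0, -, hH0⟩ := diffq q (↑F0.vars) F0 (mem_supported_vars F0)
  have hH : ∀ k j, ¬ j < k → H k j = 0 := by
    intro k j hjk
    refine hH1 k j ?_
    intro h
    exact hjk (h j rfl)
  have hs := psi_surj q t ht H hH H0
  have hb : Function.Bijective (psi q t H H0) :=
    ⟨inj_of_surj (psi q t H H0 : MvPolynomial (Fin n ⊕ (Fin e ⊕ Fin e)) ℂ →+* _) hs, hs⟩
  refine ⟨AlgEquiv.ofBijective (psi q t H H0) hb, ?_⟩
  rw [AlgEquiv.ofBijective_apply]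
  -- the images of the parts
  have hρ : ∀ p : MvPolynomial (Fin n) ℂ, rename (Sum.map id Sum.inr)
      (rename Sum.inl p : MvPolynomial (Fin n ⊕ Fin e) ℂ) =
        (rename Sum.inl p : MvPolynomial (Fin n ⊕ (Fin e ⊕ Fin e)) ℂ) := by
    intro p
    rw [rename_rename]
    rfl
  have e1 : ∀ p : MvPolynomial (Fin n) ℂ, psi q t H H0 (rename Sum.inl p) =
      rename Sum.inl p := by
    intro p
    unfold psi
    rw [aeval_rename]
    have h2 : (Sum.elim (fun i => X (Sum.inl i)) (Sum.elim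
        (fun j => C (t j) * X (Sum.inr (Sum.inl j)) -
          ∑ k, X (Sum.inr (Sum.inl k)) * rename (Sum.map id Sum.inr) (H k j) +
          rename (Sum.map id Sum.inr) (H0 j))
        (fun j => X (Sum.inr (Sum.inr j)) - rename Sum.inl (q j))) :
        Fin n ⊕ (Fin e ⊕ Fin e) → MvPolynomial (Fin n ⊕ (Fin e ⊕ Fin e)) ℂ) ∘ Sum.inl =
        X ∘ Sum.inl := by
      funext i
      rfl
    have h3 := MvPolynomial.aeval_unique
      (rename Sum.inl : MvPolynomial (Fin n) ℂ →ₐ[ℂ] MvPolynomial (Fin n ⊕ (Fin e ⊕ Fin e)) ℂ)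
    have h4 : (⇑(rename Sum.inl : MvPolynomial (Fin n) ℂ →ₐ[ℂ]
        MvPolynomial (Fin n ⊕ (Fin e ⊕ Fin e)) ℂ)) ∘ X = X ∘ Sum.inl := by
      funext i
      exact rename_X _ _
    rw [h2, h3, h4]
  have e2 : ∀ k, psi q t H H0 (X (Sum.inr (Sum.inl k))) =
      C (t k) * X (Sum.inr (Sum.inl k)) -
      ∑ l, X (Sum.inr (Sum.inl l)) * rename (Sum.map id Sum.inr) (H l k) +
      rename (Sum.map id Sum.inr) (H0 k) := by
    intro k
    unfold psi
    rw [aeval_X]
    rfl
  have e3 : ∀ k, psi q t H H0 (X (Sum.inr (Sum.inr k))) =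
      X (Sum.inr (Sum.inr k)) - rename Sum.inl (q k) := by
    intro k
    unfold psi
    rw [aeval_X]
    rfl
  -- the difference quotients in the large ring
  obtain ⟨ρ, hρd⟩ : ∃ ρ : MvPolynomial (Fin n ⊕ Fin e) ℂ →ₐ[ℂ]
    MvPolynomial (Fin n ⊕ (Fin e ⊕ Fin e)) ℂ, ρ = rename (Sum.map id Sum.inr) := ⟨_, rfl⟩
  obtain ⟨ι, hιd⟩ : ∃ ι : MvPolynomial (Fin n) ℂ →ₐ[ℂ]
    MvPolynomial (Fin n ⊕ (Fin e ⊕ Fin e)) ℂ, ι = rename Sum.inl := ⟨_, rfl⟩
  obtain ⟨u, hu⟩ : ∃ u : Fin e → MvPolynomial (Fin n ⊕ (Fin e ⊕ Fin e)) ℂ,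
    u = fun k => X (Sum.inr (Sum.inl k)) := ⟨_, rfl⟩
  obtain ⟨v, hv⟩ : ∃ v : Fin e → MvPolynomial (Fin n ⊕ (Fin e ⊕ Fin e)) ℂ,
    v = fun k => X (Sum.inr (Sum.inr k)) := ⟨_, rfl⟩
  have hρι : ∀ p : MvPolynomial (Fin n) ℂ, ρ (rename Sum.inl p) = ι p := by
    intro p
    rw [hρd, hιd]
    exact hρ p
  have hρv : ∀ j, ρ (X (Sum.inr j)) = v j := by
    intro j
    rw [hρd, hv, rename_X]
    rfl
  have hρC : ∀ c : ℂ, ρ (C c) = C c := by
    intro c
    rw [hρd, rename_C]
  have hιC : ∀ c : ℂ, ι (C c) = C c := by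
    intro c
    rw [hιd, rename_C]
  have d1 : ∀ k, ρ (g k) - C (t k) * ι (q k) = ∑ j, ρ (H k j) * (v j - ι (q j)) := by
    intro k
    have h2 := congrArg ρ (hH2 k)
    rw [map_sub, hρι, ← hq k, map_mul, hιC, map_sum] at h2
    rw [h2]
    refine Finset.sum_congr rfl fun j _ => ?_
    rw [map_mul, map_sub, hρv, hρι]
  have d0 : ρ F0 = ι (aeval (Sum.elim X q) F0) + ∑ j, ρ (H0 j) * (v j - ι (q j)) := by
    have h2 := congrArg ρ hH0
    rw [map_sub, hρι, map_sum, sub_eq_iff_eq_add'] at h2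
    rw [h2]
    congr 1
    refine Finset.sum_congr rfl fun j _ => ?_
    rw [map_mul, map_sub, hρv, hρι]
  have e1' : ∀ p : MvPolynomial (Fin n) ℂ, psi q t H H0 (ι p) = ι p := by
    intro p
    rw [hιd]
    exact e1 p
  have e2' : ∀ k, psi q t H H0 (u k) = C (t k) * u k - ∑ l, u l * ρ (H l k) + ρ (H0 k) := by
    intro k
    rw [hu, hρd]
    exact e2 k
  have e3' : ∀ k, psi q t H H0 (v k) = v k - ι (q k) := by
    intro k
    rw [hv, hιd]
    exact e3 k
  have hsus : susP (aeval (Sum.elim X q) F0) e =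
      ι (aeval (Sum.elim X q) F0) + ∑ k, u k * v k := by
    rw [hιd, hu, hv]
    rfl
  have hcay : cayley g t F0 = ρ F0 + ∑ k, u k * (C (t k) * v k - ρ (g k)) := by
    rw [hρd, hu, hv]
    rfl
  rw [hsus, map_add, e1', map_sum, hcay, d0, add_assoc]
  congr 1
  have d2 : ∀ k, u k * (C (t k) * v k - ρ (g k)) =
      C (t k) * u k * (v k - ι (q k)) - ∑ j, u k * ρ (H k j) * (v j - ι (q j)) := by
    intro k
    have h3 : ∑ j, u k * ρ (H k j) * (v j - ι (q j)) =
        u k * (ρ (g k) - C (t k) * ι (q k)) := by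
      rw [d1, Finset.mul_sum]
      refine Finset.sum_congr rfl fun j _ => ?_
      ring
    rw [h3]
    ring
  simp only [d2, Finset.sum_sub_distrib]
  have d3 : ∑ k, ∑ j, u k * ρ (H k j) * (v j - ι (q j)) =
      ∑ j, (∑ k, u k * ρ (H k j)) * (v j - ι (q j)) := by
    rw [Finset.sum_comm]
    refine Finset.sum_congr rfl fun j _ => ?_
    rw [Finset.sum_mul]
  rw [d3, ← Finset.sum_sub_distrib, ← Finset.sum_add_distrib]
  refine Finset.sum_congr rfl fun j _ => ?_
  rw [map_mul, e2', e3']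
  ring

end Pool.Agent.H56.ST
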