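import Mathlib
import Pool.Agent.H22.T7.Defs

/-!
# Stable equivalence of polynomials

`susP F e` is the polynomial `F + u_1 v_1 + ⋯ + u_e v_e`. `output g t F0` is the output of an
arithmetic circuit; `cayley g t F0` is the polynomial
`F0(x, v) + ∑ u_k (t_k v_k - g_k(x, v))` in the variables `x, u, v`.
-/

set_option autoImplicit false

namespace Pool.Agent.H56.ST

open Finset MvPolynomial

/-- The polynomial `F + u_1 v_1 + ⋯ + u_e v_e`. -/
noncomputable def susP {n : ℕ} (F : MvPolynomial (Fin n) ℂ) (e : ℕ) :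
    MvPolynomial (Fin n ⊕ (Fin e ⊕ Fin e)) ℂ :=
  rename Sum.inl F + ∑ k, X (Sum.inr (Sum.inl k)) * X (Sum.inr (Sum.inr k))

/-- `g_k` is a polynomial in `x_1, …, x_n` and in the `v_j` with `j < k`. -/
def Triangular {n e : ℕ} (g : Fin e → MvPolynomial (Fin n ⊕ Fin e) ℂ) : Prop :=
  ∀ k j, Sum.inr j ∈ (g k).vars → j < k

/-- `q_k` is the value of the `k`-th gate: `t_k q_k = g_k(x, q_1, …, q_{k-1})`. -/
def Gates {n e : ℕ} (g : Fin e → MvPolynomial (Fin n ⊕ Fin e) ℂ) (t : Fin e → ℂ)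
    (q : Fin e → MvPolynomial (Fin n) ℂ) : Prop :=
  ∀ k, C (t k) * q k = aeval (Sum.elim X q) (g k)

/-- The polynomial `F0(x, v) + ∑_k u_k (t_k v_k - g_k(x, v))` in the variables `x, u, v`. -/
noncomputable def cayley {n e : ℕ} (g : Fin e → MvPolynomial (Fin n ⊕ Fin e) ℂ) (t : Fin e → ℂ)
    (F0 : MvPolynomial (Fin n ⊕ Fin e) ℂ) : MvPolynomial (Fin n ⊕ (Fin e ⊕ Fin e)) ℂ :=
  rename (Sum.map id Sum.inr) F0 + ∑ k, X (Sum.inr (Sum.inl k)) *
    (C (t k) * X (Sum.inr (Sum.inr k)) - rename (Sum.map id Sum.inr) (g k))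

end Pool.Agent.H56.ST
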