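import Pool.Agent.H56.ST.Defs
import Pool.Agent.H22.T7.PFB

/-!
# EXTP: extension of differential operators to more variables (polynomials)
-/

set_option autoImplicit false

namespace Pool.Agent.H56.ST

open Finset
open Pool.Agent.H22.T7

theorem pderiv_inr_inl {α β : Type} (j : β) (g : MvPolynomial α ℂ) :
    MvPolynomial.pderiv (Sum.inr j : α ⊕ β) (MvPolynomial.rename Sum.inl g) = 0 := by
  classical
  induction g using MvPolynomial.induction_on with
  | C a => rw [MvPolynomial.rename_C, MvPolynomial.pderiv_C]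
  | add p q hp hq => rw [map_add, map_add, hp, hq, add_zero]
  | mul_X p i hp =>
    rw [map_mul, MvPolynomial.rename_X, Derivation.leibniz, hp,
      MvPolynomial.pderiv_X_of_ne (by simp), smul_zero, smul_zero, add_zero]

/-- The extension of a derivation to more variables. -/
noncomputable def extDer {α : Type} (β : Type)
    (δ : Derivation ℂ (MvPolynomial α ℂ) (MvPolynomial α ℂ)) :
    Derivation ℂ (MvPolynomial (α ⊕ β) ℂ) (MvPolynomial (α ⊕ β) ℂ) :=
  MvPolynomial.mkDerivation ℂ
    (Sum.elim (fun j => MvPolynomial.rename Sum.inl (δ (MvPolynomial.X j))) fun _ => 0)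

theorem extDer_inl {α : Type} (β : Type)
    (δ : Derivation ℂ (MvPolynomial α ℂ) (MvPolynomial α ℂ)) (g : MvPolynomial α ℂ) :
    extDer β δ (MvPolynomial.rename Sum.inl g) = MvPolynomial.rename Sum.inl (δ g) := by
  induction g using MvPolynomial.induction_on with
  | C a =>
    rw [MvPolynomial.rename_C, ← MvPolynomial.algebraMap_eq, ← MvPolynomial.algebraMap_eq,
      Derivation.map_algebraMap, Derivation.map_algebraMap, map_zero]
  | add p q hp hq => rw [map_add, map_add, hp, hq, map_add, map_add]
  | mul_X p i hp =>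
    have h1 : extDer β δ (MvPolynomial.X (Sum.inl i)) =
        MvPolynomial.rename Sum.inl (δ (MvPolynomial.X i)) := by
      unfold extDer
      rw [MvPolynomial.mkDerivation_X]
      rfl
    rw [map_mul, MvPolynomial.rename_X, Derivation.leibniz, hp, h1, Derivation.leibniz, map_add,
      smul_eq_mul, smul_eq_mul, smul_eq_mul, smul_eq_mul, map_mul, map_mul, MvPolynomial.rename_X]

theorem extDer_inr {α : Type} (β : Type)
    (δ : Derivation ℂ (MvPolynomial α ℂ) (MvPolynomial α ℂ)) (q : MvPolynomial β ℂ) :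
    extDer β δ (MvPolynomial.rename Sum.inr q) = 0 := by
  induction q using MvPolynomial.induction_on with
  | C a =>
    rw [MvPolynomial.rename_C, ← MvPolynomial.algebraMap_eq, Derivation.map_algebraMap]
  | add p q hp hq => rw [map_add, map_add, hp, hq, add_zero]
  | mul_X p i hp =>
    have h1 : extDer β δ (MvPolynomial.X (Sum.inr i)) = 0 := by
      unfold extDer
      rw [MvPolynomial.mkDerivation_X]
      rfl
    rw [map_mul, MvPolynomial.rename_X, Derivation.leibniz, hp, h1, smul_zero, smul_zero,
      add_zero]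

/-- EXTP -/
theorem extP {α β : Type} {D : Module.End ℂ (MvPolynomial α ℂ)}
    (hD : D ∈ Diff (MvPolynomial α ℂ)) :
    ∃ D' ∈ Diff (MvPolynomial (α ⊕ β) ℂ), ∀ (g : MvPolynomial α ℂ) (q : MvPolynomial β ℂ),
      D' (MvPolynomial.rename Sum.inl g * MvPolynomial.rename Sum.inr q) =
        MvPolynomial.rename Sum.inl (D g) * MvPolynomial.rename Sum.inr q := by
  revert D
  apply Diff_ind
  · refine ⟨1, one_mem _, ?_⟩
    intro g q
    rfl
  · rintro D E ⟨D', hD', h1⟩ ⟨E', hE', h2⟩
    refine ⟨D' + E', add_mem hD' hE', ?_⟩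
    intro g q
    rw [LinearMap.add_apply, h1, h2, LinearMap.add_apply, map_add, add_mul]
  · rintro c D ⟨D', hD', h1⟩
    refine ⟨c • D', Subalgebra.smul_mem _ hD' c, ?_⟩
    intro g q
    rw [LinearMap.smul_apply, h1, LinearMap.smul_apply, map_smul, smul_mul_assoc]
  · rintro a D ⟨D', hD', h1⟩
    refine ⟨LinearMap.mulLeft ℂ (MvPolynomial.rename Sum.inl a) * D',
      mul_mem (mulLeft_mem _) hD', ?_⟩
    intro g q
    rw [Module.End.mul_apply, h1, Module.End.mul_apply, LinearMap.mulLeft_apply,
      LinearMap.mulLeft_apply, map_mul, mul_assoc]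
  · rintro δ D ⟨D', hD', h1⟩
    refine ⟨(extDer β δ).toLinearMap * D', mul_mem (der_mem _) hD', ?_⟩
    intro g q
    rw [Module.End.mul_apply, h1, Module.End.mul_apply]
    change extDer β δ (MvPolynomial.rename Sum.inl (D g) * MvPolynomial.rename Sum.inr q) =
      MvPolynomial.rename Sum.inl (δ (D g)) * MvPolynomial.rename Sum.inr q
    rw [Derivation.leibniz, extDer_inl, extDer_inr, smul_zero, zero_add, smul_eq_mul, mul_comm]

end Pool.Agent.H56.ST
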