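import Pool.Agent.H56.ST.UNS
import Pool.Agent.H22.T6.RT
import Pool.Agent.H37.T6.FIN6
import Pool.Agent.H56.SMC.BM1

/-!
# MAINA: poles under stable equivalence
-/

set_option autoImplicit false

namespace Pool.Agent.H56.ST

open Finset MvPolynomial
open Pool.Agent.H22 Pool.Agent.H22.T7 Pool.Agent.H56.SMC Pool.Agent.H37.T5 Pool.Agent.H37.SM

/-- Poles of the zeta function of a stably nondegenerate polynomial. -/
theorem stab_poles {n e m r : ℕ} (F : MvPolynomial (Fin n) ℂ) (hF : ∀ c : ℂ, F ≠ C c)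
    (b : Polynomial ℂ) (P : WeylS n) (hP : FunctionalEquation F b P)
    (a : Fin r → (Fin m →₀ ℕ)) (ha : Function.Injective a) (κ : Fin r → ℂ) (hnd : Nondeg a κ)
    (φ : MvPolynomial (Fin n ⊕ (Fin e ⊕ Fin e)) ℂ ≃ₐ[ℂ] MvPolynomial (Fin m) ℂ)
    (hφ : φ (susP F e) = ∑ i, monomial (a i) (κ i))
    (𝒟 : ∀ τ, FaceCones a τ) (𝒯 : ∀ τ, FaceTriang a τ) (s0 : ℂ) (hs0 : s0.re < 0 ∨ e = 0)
    (hs : (unstab e (topZetaG a 𝒟 𝒯)).denom.IsRoot s0) : b.IsRoot s0 := by
  classical
  by_contra hb
  have hb' : b.eval s0 ≠ 0 := hb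
  have hs1 : s0 ≠ -1 := by
    rintro rfl
    exact hb' (eval_neg_one_general F hF b P hP)
  obtain ⟨bt, P', hbt, hP'⟩ := fe_stab (e := e) F hF b P hP φ
  rw [hφ] at hP'
  have hbts : bt.eval s0 ≠ 0 := by
    intro h
    apply hb'
    rw [hbt, Polynomial.eval_mul, h, mul_zero]
  have hne := exists_ne F hF a κ φ hφ
  -- `s0 - e` is not a pole of the zeta function of `W`
  have hse1 : s0 - e ≠ -1 := by
    intro h
    rcases hs0 with h0 | h0
    · have h1 : s0 = (e : ℂ) - 1 := by linear_combination h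
      rcases Nat.eq_zero_or_pos e with h2 | h2
      · subst h2
        apply hs1
        rw [h1]
        push_cast
        ring
      · rw [h1, Complex.sub_re, Complex.natCast_re, Complex.one_re] at h0
        have h3 : (1 : ℝ) ≤ e := by exact_mod_cast h2
        linarith
    · subst h0
      apply hs1
      rw [← h]
      push_cast
      ring
  have hbe : ((Polynomial.X + 1) * bt.comp (Polynomial.X + Polynomial.C (e : ℂ))).eval
      (s0 - e) ≠ 0 := by
    rw [Polynomial.eval_mul, Polynomial.eval_comp, Polynomial.eval_add, Polynomial.eval_X,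
      Polynomial.eval_one, Polynomial.eval_add, Polynomial.eval_X, Polynomial.eval_C,
      sub_add_cancel]
    refine mul_ne_zero ?_ hbts
    intro h
    apply hse1
    linear_combination h
  have hreg : Reg (s0 - e) (topZetaG a 𝒟 𝒯) :=
    Pool.Agent.H37.T6.polesT6 a ha hne (s0 - e) hse1
      (Pool.Agent.H22.T6.rootT6 a κ hnd _ P' hP' (s0 - e) hse1 hbe) 𝒟 𝒯
  rcases hs0 with h0 | h0
  · refine reg_unstab e s0 hs1 ?_ _ hreg hs
    intro h
    have h1 : s0 = (e : ℂ) := by linear_combination h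
    rw [h1, Complex.natCast_re] at h0
    have h2 : (0 : ℝ) ≤ e := Nat.cast_nonneg e
    linarith
  · subst h0
    rw [unstab_zero] at hs
    rw [Nat.cast_zero, sub_zero] at hreg
    exact hreg hs

end Pool.Agent.H56.ST
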