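import Pool.Agent.H56.ST.UNS
import Pool.Agent.H22.G12
import Pool.Agent.H22.VolAdd

/-!
# MAINB: multiplicities of poles under stable equivalence
-/

set_option autoImplicit false

namespace Pool.Agent.H56.ST

open Finset MvPolynomial
open Pool.Agent.H22 Pool.Agent.H22.T7 Pool.Agent.H37.SM

theorem root_mult_le {p q : Polynomial ℂ} (hq : q ≠ 0) (h : p ∣ q) (s : ℂ) :
    p.rootMultiplicity s ≤ q.rootMultiplicity s := by
  obtain ⟨c, rfl⟩ := h
  rw [Polynomial.rootMultiplicity_mul hq]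
  exact Nat.le_add_right _ _

/-- Multiplicities of the poles, if the coefficients are algebraically independent. -/
theorem stab_mult {n e m r : ℕ} (F : MvPolynomial (Fin n) ℂ) (hF : ∀ c : ℂ, F ≠ C c)
    (b : Polynomial ℂ) (hb : b ≠ 0) (P : WeylS n) (hP : FunctionalEquation F b P)
    (a : Fin r → (Fin m →₀ ℕ)) (ha : Function.Injective a) (κ : Fin r → ℂ)
    (hκ : AlgebraicIndependent ℚ κ)
    (φ : MvPolynomial (Fin n ⊕ (Fin e ⊕ Fin e)) ℂ ≃ₐ[ℂ] MvPolynomial (Fin m) ℂ)
    (hφ : φ (susP F e) = ∑ i, monomial (a i) (κ i))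
    (𝒟 : ∀ τ, FaceCones a τ) (𝒯 : ∀ τ, FaceTriang a τ) (s0 : ℂ) (hs0 : s0.re < 0 ∨ e = 0) :
    (unstab e (topZetaG a 𝒟 𝒯)).denom.rootMultiplicity s0 ≤ b.rootMultiplicity s0 := by
  classical
  obtain ⟨bt, P', hbt, hP'⟩ := fe_stab (e := e) F hF b P hP φ
  rw [hφ] at hP'
  have hne := exists_ne F hF a κ φ hφ
  have hdvd : (topZetaG a 𝒟 𝒯).denom ∣
      (Polynomial.X + 1) * bt.comp (Polynomial.X + Polynomial.C (e : ℂ)) := by
    refine main_theoremG a ha hne κ hκ 𝒟 𝒯 (fun h' hh τ hτ hne => ?_) _ P' hP'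
    refine nvol_eq_upper a h' hh τ hne (fun l hl => ?_) (𝒯 τ)
    have h1 : l ∈ flatF a τ := mem_flatF.mpr hl
    rwa [isFace_flat hne hτ] at h1
  have hbt0 : bt ≠ 0 := by
    rintro rfl
    exact hb (by rw [hbt, mul_zero])
  have hbtc : bt.comp (Polynomial.X + Polynomial.C (e : ℂ)) ≠ 0 := by
    intro h0
    exact hbt0 (Polynomial.comp_X_add_C_eq_zero_iff.1 h0)
  have hX1 : (Polynomial.X + 1 : Polynomial ℂ) ≠ 0 := by
    have := Polynomial.X_add_C_ne_zero (1 : ℂ)
    rwa [map_one] at this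
  rcases Nat.eq_zero_or_pos e with he | he
  · subst he
    rw [unstab_zero]
    refine root_mult_le hb ?_ s0
    have h1 : bt.comp (Polynomial.X + Polynomial.C ((0 : ℕ) : ℂ)) = bt := by simp
    rw [h1, ← hbt] at hdvd
    exact hdvd
  have hre : s0.re < 0 := by
    rcases hs0 with h | h
    · exact h
    · omega
  obtain ⟨N, hN⟩ := exists_of_denom_dvd (mul_ne_zero hX1 hbtc) hdvd
  set ι := algebraMap (Polynomial ℂ) (RatFunc ℂ) with hι
  have hιi : Function.Injective ι := RatFunc.algebraMap_injective ℂ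
  have hιne : ∀ {p : Polynomial ℂ}, p ≠ 0 → ι p ≠ 0 := by
    intro p hp h
    exact hp (hιi (by rw [h, map_zero]))
  have hιX : ι Polynomial.X = RatFunc.X := RatFunc.algebraMap_X
  have h1 : ((RatFunc.X + 1) * topZetaG a 𝒟 𝒯 - 1) / RatFunc.X =
      ι (N - bt.comp (Polynomial.X + Polynomial.C (e : ℂ))) /
        ι (Polynomial.X * bt.comp (Polynomial.X + Polynomial.C (e : ℂ))) := by
    rw [hN, map_mul, map_mul, map_sub, map_add, map_one, hιX]
    have h2 := hιne hbtc
    have h3 := X_add_one_ne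
    have h4 : (RatFunc.X : RatFunc ℂ) ≠ 0 := RatFunc.X_ne_zero
    field_simp
  have h2 : (((RatFunc.X + 1) * topZetaG a 𝒟 𝒯 - 1) / RatFunc.X).denom ∣
      Polynomial.X * bt.comp (Polynomial.X + Polynomial.C (e : ℂ)) :=
    denom_dvd_of_eq h1
  have h3 := aff_denom (-(e : ℂ)) _ h2
  have h4 : (Polynomial.X * bt.comp (Polynomial.X + Polynomial.C (e : ℂ))).comp
      (Polynomial.X + Polynomial.C (-(e : ℂ))) = (Polynomial.X - Polynomial.C (e : ℂ)) * bt := by
    rw [Polynomial.mul_comp, Polynomial.X_comp, Polynomial.comp_assoc]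
    simp [sub_eq_add_neg]
  rw [h4] at h3
  have hXe : (Polynomial.X - Polynomial.C (e : ℂ) : Polynomial ℂ) ≠ 0 :=
    Polynomial.X_sub_C_ne_zero _
  obtain ⟨M, hM⟩ := exists_of_denom_dvd (mul_ne_zero hXe hbt0) h3
  rw [← hι] at hM
  have h5 : unstab e (topZetaG a 𝒟 𝒯) =
      ι ((Polynomial.X - Polynomial.C (e : ℂ)) * bt + Polynomial.X * M) /
        ι ((Polynomial.X - Polynomial.C (e : ℂ)) * b) := by
    unfold unstab
    rw [hM, hbt, map_add, map_mul, map_mul, map_mul, map_mul, map_add, map_one, hιX]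
    have h6 := hιne hXe
    have h7 := hιne hbt0
    have h8 := X_add_one_ne
    field_simp
  have h6 := denom_dvd_of_eq h5
  have h7 := root_mult_le (mul_ne_zero hXe hb) h6 s0
  rw [Polynomial.rootMultiplicity_mul (mul_ne_zero hXe hb)] at h7
  have h8 : (Polynomial.X - Polynomial.C (e : ℂ)).rootMultiplicity s0 = 0 := by
    rw [Polynomial.rootMultiplicity_eq_zero_iff]
    intro h9
    rw [Polynomial.IsRoot.def, Polynomial.eval_sub, Polynomial.eval_X, Polynomial.eval_C,
      sub_eq_zero] at h9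
    rw [h9, Complex.natCast_re] at hre
    have h10 : (0 : ℝ) ≤ e := Nat.cast_nonneg e
    linarith
  rw [h8, zero_add] at h7
  exact h7

end Pool.Agent.H56.ST
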